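import Pool.Agent.MP_d05e11_al.Main

namespace Pool.Agent.Results.MP_d05e11_al.Full

open Pool.Agent.MP_d05e11_al

theorem result (ρ : ℝ → ℝ) (h1 : ∀ x, 1 ≤ x → 1 ≤ ρ x) (hmono : MonotoneOn ρ (Set.Ici 1))
    (hsub : ∀ x y, 1 ≤ x → 1 ≤ y → ρ (x + y) ≤ ρ x + ρ y)
    (hsqrt : ∀ x, 1 ≤ x → Real.sqrt x ≤ ρ x) :
    ∃ (G : Type) (_ : Group G) (S : Finset G) (μ : G →₀ ℝ),
      (∀ s ∈ S, s⁻¹ ∈ S) ∧ Subgroup.closure (S : Set G) = ⊤ ∧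
      (∀ g, 0 ≤ μ g) ∧ (∑ g ∈ μ.support, μ g) = 1 ∧ (∀ g, μ g⁻¹ = μ g) ∧
      Subgroup.closure (μ.support : Set G) = ⊤ ∧
      Lesssim (speed S μ) (fun n => ρ n) ∧ Lesssim (fun n => ρ n) (speed S μ) := by
  have hc : ∀ n : ℕ, 1 ≤ n → (1 : ℝ) ≤ n := fun n hn => by exact_mod_cast hn
  have hm : ∀ n m : ℕ, 1 ≤ n → n ≤ m → ρ n ≤ ρ m := fun n m hn hnm =>
    hmono (hc n hn) (hc m (hn.trans hnm)) (by exact_mod_cast hnm)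
  obtain ⟨D, C, hC⟩ := exists_data (ρ := fun n => ρ n) (fun n hn => h1 _ (hc n hn)) hm
    (fun n m hn hm => by simpa using hsub _ _ (hc n hn) (hc m hm))
    (fun n hn => hsqrt _ (hc n hn))
  have hinv : ∀ ω, D.gen' (Data.oinv ω) = (D.gen' ω)⁻¹ := fun ω => Subtype.ext (D.gen_oinv ω)
  have hK : C ≤ ((⌈C⌉₊ + 1 : ℕ) : ℝ) := by
    have := Nat.le_ceil C
    push_cast; linarith
  have hK0 : (0 : ℝ) ≤ ((⌈C⌉₊ + 1 : ℕ) : ℝ) := Nat.cast_nonneg _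
  refine ⟨D.G, inferInstance, (pushUnif D.gen').support, pushUnif D.gen', D.inv_mem_support,
    D.closure_gen',
    pushUnif_nonneg _, pushUnif_sum _, pushUnif_inv _ _ Data.oinv_oinv hinv, D.closure_gen',
    ⟨⌈C⌉₊ + 1, Nat.succ_pos _, fun n hn => ?_⟩, ⟨⌈C⌉₊ + 1, Nat.succ_pos _, fun n hn => ?_⟩⟩
  · rw [D.speed_eq]
    have h2 := hm n ((⌈C⌉₊ + 1) * n) hn (by nlinarith)
    have h3 := h1 _ (hc n hn)
    refine (hC n hn).1.trans ?_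
    exact mul_le_mul hK h2 (by linarith) hK0
  · rw [D.speed_eq]
    have h2 := hm n ((⌈C⌉₊ + 1) * n) hn (by nlinarith)
    have h3 := (hC ((⌈C⌉₊ + 1) * n) (by nlinarith)).2
    have h4 : 0 ≤ D.Lw ((⌈C⌉₊ + 1) * n) :=
      le_trans (by positivity) (D.sqrt_le_Lw _)
    exact h2.trans (h3.trans (mul_le_mul_of_nonneg_right hK h4))

end Pool.Agent.Results.MP_d05e11_al.Full
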